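import Mathlib
import Pool.Agent.TH545.CF.EndB
import Pool.Agent.TH716.CF.KeyB
import Pool.Agent.TH716.CF.Bd
import Pool.Agent.TH98.CF.Final

set_option autoImplicit false

/-!
# Vanishing for a general monomial collision of fat points

For every algebraically closed field `k` of any characteristic, all `r > 9` and all `m ≥ 1`, the
subscheme of the plane with ideal
`(y - (a₀ + a₁ x + ... + a_(r-1) x ^ (r-1)), (x - c) ^ r) ^ m` lies, for all `(c, a)` outside a
hypersurface, on no curve of degree `d ≤ m √r`.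
-/

namespace Pool.Agent.Results.MP_cea741_ag.CollisionsAllCharacteristics

open Polynomial Pool.Agent.TH716.CF

universe u

/-- either the inequality is strict or the number of points is a square -/
theorem cases_eq {r m d : ℕ} (hm : 0 < m) (hr : 9 < r) (hd : (d : ℝ) ≤ m * Real.sqrt r) :
    Real.sqrt r * d < r * m ∨ ∃ k : ℕ, 4 ≤ k ∧ r = k ^ 2 ∧ d = m * k := by
  have hrR : (0 : ℝ) < r := by exact_mod_cast (by omega : 0 < r)
  have hs : 0 < Real.sqrt r := Real.sqrt_pos.2 hrR
  have hss : Real.sqrt r * Real.sqrt r = r := Real.mul_self_sqrt hrR.le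
  rcases lt_or_eq_of_le hd with h | h
  · left
    calc Real.sqrt r * d < Real.sqrt r * (m * Real.sqrt r) := mul_lt_mul_of_pos_left h hs
      _ = (Real.sqrt r * Real.sqrt r) * m := by ring
      _ = r * m := by rw [hss]
  · right
    have h1 : (d : ℝ) ^ 2 = (m : ℝ) ^ 2 * r := by rw [h, mul_pow, Real.sq_sqrt hrR.le]
    have h2 : d ^ 2 = m ^ 2 * r := by exact_mod_cast h1
    obtain ⟨k, hk⟩ := (Nat.pow_dvd_pow_iff (by norm_num : (2 : ℕ) ≠ 0)).1
      (⟨r, h2⟩ : m ^ 2 ∣ d ^ 2)
    have h3 : r = k ^ 2 := by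
      have h4 : m ^ 2 * r = m ^ 2 * k ^ 2 := by rw [← h2, hk]; ring
      exact Nat.eq_of_mul_eq_mul_left (by positivity) h4
    refine ⟨k, ?_, h3, hk⟩
    by_contra hcon
    have : k ≤ 3 := by omega
    have : k ^ 2 ≤ 9 := by nlinarith
    omega

theorem result : ∀ r : ℕ, 9 < r → ∀ (k : Type u) [Field k] [IsAlgClosed k] (m : ℕ), 0 < m →
    ∃ F : MvPolynomial (Fin (r + 1)) k, F ≠ 0 ∧
      ∀ (c : k) (a : Fin r → k), MvPolynomial.eval (Fin.cons c a : Fin (r + 1) → k) F ≠ 0 →
        ∀ d : ℕ, (d : ℝ) ≤ m * Real.sqrt r →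
          ∀ P : MvPolynomial (Fin 3) k, P.IsHomogeneous d →
            (MvPolynomial.aeval ![C X, X, 1] : MvPolynomial (Fin 3) k →ₐ[k] k[X][X]) P ∈
              (Ideal.span {X - C (∑ j : Fin r, C (a j) * X ^ (j : ℕ)), C ((X - C c) ^ r)} :
                Ideal k[X][X]) ^ m →
            P = 0 := by
  intro r hr k _ _ m hm
  obtain ⟨p, hp⟩ := CharP.exists k
  have hp' : p = 0 ∨ p.Prime := (CharP.char_is_prime_or_zero k p).symm
  refine Pool.Agent.TH545.CF.coll_end p fun d hd => ?_
  have e1 : (∑ _i : Unit, r : ℕ) = r := by simp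
  have e2 : (∑ _i : Unit, r * m : ℕ) = r * m := by simp
  rcases cases_eq hm hr hd with h | ⟨l, hl, hrl, hdl⟩
  · obtain ⟨τ, h0, h1, hE⟩ := strict @Pool.Agent.TH98.CF.EmpG_final hp' (ι := Unit)
      (r := fun _ => r) (w := fun _ => m) (d := d) (fun _ => by omega) (by rw [e1]; omega)
      (by rw [e1, e2]; push_cast; exact h)
    exact key_coll h0 h1 hE
  · obtain ⟨τ, h0, h1, hE⟩ := boundary @Pool.Agent.TH98.CF.EmpG_final hp' (ι := Unit)
      (r := fun _ => r) (w := fun _ => m) (d := d) (fun _ => by omega) hl (by rw [e1]; exact hrl)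
      (by rw [hdl]; exact Nat.mul_pos hm (by omega))
      (by rw [e2, hdl, hrl]; exact le_of_eq (by ring))
    exact key_coll h0 h1 hE

end Pool.Agent.Results.MP_cea741_ag.CollisionsAllCharacteristics
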